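import Pool.Agent.N912.LB.Stm

/-!
# Project LB (helper912), second part
-/

set_option autoImplicit false

namespace Pool.Agent.N912.LB

open Pool.Agent.W78.GA (Qd)

/-- LB10: a function which is constant, not `1`, on the primes is far from the ray class characters -/
def S_FARC : Prop := ∀ t c : ℤ, t ^ 2 < 4 * c → IsIntegrallyClosed (Qd t c) →
  ∀ (N : ℕ) (F : Ideal (Qd t c) → ℂ), CMI N F → ∀ b : ℂ, b ≠ 1 →
  (∀ 𝔭 : Ideal (Qd t c), 𝔭.IsPrime → 𝔭 ≠ ⊥ → F 𝔭 = b) → FarR F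

end Pool.Agent.N912.LB
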