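import Pool.Agent.N912.LB.Fingb
import Pool.Agent.N912.LB.Stm2
import Pool.Agent.N912.LC.All
import Pool.Agent.N887.LB.Core2b
import Pool.Agent.N507.LB.Finmgb
import Pool.Agent.N568.LB.B7
import Pool.Agent.N457.LB.HA
import Pool.Agent.N712.LB.Hm3
import Pool.Agent.N527.LB.L8
import Pool.Agent.N296.LB.Core1B
import Pool.Agent.N301.LB.B1
import Pool.Agent.N603.RC.RC3
import Pool.Agent.N864.RC.Mean
import Pool.Agent.N864.RC.Pnt
import Pool.Agent.N545.LB.HE
import Pool.Agent.N368.LB.Farc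

/-!
# Project LB (helper912): assembly
-/

set_option autoImplicit false

namespace Pool.Agent.N912.LB

open Finset Filter
open Pool.Agent.W78.GA (Qd nm)
open Pool.Agent.N568.LB

theorem core2All : S_CORE2B :=
  Pool.Agent.N887.LB.core2b
    (Pool.Agent.N296.LB.core1b Pool.Agent.N912.LC.mcAll Pool.Agent.N31.LC.lc6a
      Pool.Agent.N301.LB.b1 Pool.Agent.N301.LB.b6)
    (Pool.Agent.N814.LC8.lc8 Pool.Agent.N31.LC.lc6a Pool.Agent.N951.LC.lc6b)

theorem fingAllB : S_FINGB := fingb core2All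

theorem finmgAllB : S_FINMGB := Pool.Agent.N507.LB.finmgb fingAllB Pool.Agent.N951.LC.lc9

theorem b7All : S_B7 := b7

theorem hdAll : S_HD :=
  Pool.Agent.N527.LB.hd (Pool.Agent.N712.LB.hm Pool.Agent.N457.LB.ha) Pool.Agent.N603.RC.rc3

theorem heAll : S_HE := Pool.Agent.N545.LB.he hdAll

theorem farcAll : S_FARC := Pool.Agent.N368.LB.farc Pool.Agent.N864.RC.rc1

/-- the factorisations of `n^2 + t n + c` are factorisations of the ideal `(n + ω)` -/
theorem b7' {t c : ℤ} (_ht : t = 0 ∨ t = 1) (hc : t ^ 2 < 4 * c)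
    (hO : IsIntegrallyClosed (Qd t c)) {d e n : ℕ}
    (h : (d : ℤ) * e = (n : ℤ) ^ 2 + t * n + c) :
    i1 t c d n * i1 t c e n = Ideal.span {en t c n} ∧ Nat.card (Qd t c ⧸ i1 t c d n) = d ∧
      Nat.card (Qd t c ⧸ i1 t c e n) = e := by
  have hd : 1 ≤ d := by
    rw [Nat.one_le_iff_ne_zero]
    rintro rfl
    have := N_pos hc n
    rw [← h] at this
    simp at this
  exact ⟨i1_mul hO n d e hd h, card_i1 ⟨e, h.symm⟩, card_i1 ⟨d, by rw [← h]; ring⟩⟩

end Pool.Agent.N912.LB
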