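import Pool.Agent.N912.LB.Stm
import Pool.Agent.N912.LC.Fing

/-!
# Project LB (helper912): equidistribution of `H₁(𝔞) + H₂(𝔟)` in a finite abelian group
-/

set_option autoImplicit false

namespace Pool.Agent.N912.LB

open Finset Filter
open Pool.Agent.W78.GA (Qd nm)
open Pool.Agent.N912.EP.W78EG
open Pool.Agent.N912.ED (ig four')
open Pool.Agent.N912.LC (ig_sum TW)
open Pool.Agent.V11296.CV (chpow chnrm nt)

theorem cmiG {R : Type} [CommRing R] {G : Type} [AddCommGroup G] [Finite G] {H : Ideal R → G}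
    (hH : AddI H) (ψ : AddChar G ℂ) : CMI (Nat.card G) (fun I => ψ (H I)) where
  pos := Nat.card_pos
  mul := fun I J hI hJ => by
    rw [hH I J hI hJ, AddChar.map_add_eq_mul]
  pow := fun I _ => chpow ψ _

theorem fingb (h2 : S_CORE2B) : S_FINGB := by
  classical
  intro t c ht htc hic G _ _ H₁ H₂ hH q u r r' g hq s₁ s₂ s₃ s₄ hs1 hs2 hs2' hs3 hs4 hs4' ε hε
  have : NeZero q := ⟨by omega⟩
  obtain ⟨w, hw⟩ : ∃ w : ZMod q → ZMod q → ZMod q → ℂ, w = fun a b d =>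
      if a = (u : ZMod q) ∧ b = (r : ZMod q) ∧ d = (r' : ZMod q) then 1 else 0 := ⟨_, rfl⟩
  obtain ⟨F, hF⟩ : ∃ F : ℝ → Finset (ℕ × ℕ × ℕ), F = fun X => TWq t c q u r r' s₁ s₂ s₃ s₄ X :=
    ⟨_, rfl⟩
  have hUU : ∀ (X : ℝ) (ψ : AddChar G ℂ), ∑ y ∈ TW t c s₁ s₂ s₃ s₄ X,
      w y.2.2 y.1 y.2.1 * (ψ (H₁ (i1 t c y.1 y.2.2)) * ψ (H₂ (i1 t c y.2.1 y.2.2))) =
        ∑ y ∈ F X, (1 : ℂ) * ψ (H₁ (i1 t c y.1 y.2.2) + H₂ (i1 t c y.2.1 y.2.2)) := by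
    intro X ψ
    rw [hF]
    unfold TWq
    rw [Finset.sum_filter]
    refine Finset.sum_congr rfl fun y _ => ?_
    rw [hw, AddChar.map_add_eq_mul]
    simp only [ZMod.natCast_eq_natCast_iff]
    split_ifs
    · rfl
    · rw [zero_mul]
  set E := nt (⊤ : AddSubgroup G) with hE
  set ε' : ℝ := ε / (E.card + 1) with hε'
  have hε'0 : 0 < ε' := by positivity
  have hN0 : ∀ ψ : AddChar G ℂ, ∃ N₀ : ℕ, ψ ∈ E → ∀ N : ℕ, N₀ ≤ N →
      ∑ X ∈ Icc 1 N, 1 / (X : ℝ) ^ 2 *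
        ‖∑ y ∈ F X, (1 : ℂ) * ψ (H₁ (i1 t c y.1 y.2.2) + H₂ (i1 t c y.2.1 y.2.2))‖ ≤
        ε' * Real.log N := by
    intro ψ
    by_cases he : ψ ∈ E
    · have hne : ψ ≠ 1 := by
        rintro rfl
        obtain ⟨d, -, hd⟩ := (mem_filter.1 he).2
        exact hd (AddChar.one_apply d)
      obtain ⟨N₀, hN₀⟩ := h2 t c ht htc hic (Nat.card G) _ _ (cmiG hH.add₁ ψ)
        (cmiG hH.add₂ ψ) (hH.apd ψ hne) q hq w s₁ s₂ s₃ s₄ hs1 hs2 hs2' hs3 hs4 hs4' ε' hε'0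
      refine ⟨N₀, fun _ N hN => ?_⟩
      have h6 := hN₀ N hN
      simp only [hUU] at h6
      exact h6
    · exact ⟨0, fun h' => absurd h' he⟩
  choose N₀ hN₀ using hN0
  refine ⟨E.sup N₀, fun N hN => ?_⟩
  have hlog : 0 ≤ Real.log N := Real.log_natCast_nonneg N
  calc ∑ X ∈ Icc 1 N, 1 / (X : ℝ) ^ 2 *
      |(((TWq t c q u r r' s₁ s₂ s₃ s₄ X).filter
          (fun y => H₁ (i1 t c y.1 y.2.2) + H₂ (i1 t c y.2.1 y.2.2) = g)).card : ℝ) -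
        ((TWq t c q u r r' s₁ s₂ s₃ s₄ X).card : ℝ) / Nat.card G|
      ≤ ∑ X ∈ Icc 1 N, 1 / (X : ℝ) ^ 2 * ∑ ψ ∈ E,
          ‖∑ y ∈ F X, (1 : ℂ) * ψ (H₁ (i1 t c y.1 y.2.2) + H₂ (i1 t c y.2.1 y.2.2))‖ := by
        refine Finset.sum_le_sum fun X _ => mul_le_mul_of_nonneg_left ?_ (by positivity)
        have h7 := ig_sum (F X)
          (fun y : ℕ × ℕ × ℕ => H₁ (i1 t c y.1 y.2.2) + H₂ (i1 t c y.2.1 y.2.2)) g
        have h9 : F (X : ℝ) = TWq t c q u r r' s₁ s₂ s₃ s₄ X := by rw [hF]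
        rw [← h9, ← Real.norm_eq_abs, ← Complex.norm_real, ← h7]
        have h8 := four' (F X) (fun _ => (1 : ℂ))
          (fun y : ℕ × ℕ × ℕ => H₁ (i1 t c y.1 y.2.2) + H₂ (i1 t c y.2.1 y.2.2)) g
        simp only [one_mul] at h8 ⊢
        exact h8
    _ = ∑ ψ ∈ E, ∑ X ∈ Icc 1 N, 1 / (X : ℝ) ^ 2 *
          ‖∑ y ∈ F X, (1 : ℂ) * ψ (H₁ (i1 t c y.1 y.2.2) + H₂ (i1 t c y.2.1 y.2.2))‖ := by
        simp_rw [Finset.mul_sum]
        rw [Finset.sum_comm]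
    _ ≤ ∑ _e ∈ E, ε' * Real.log N :=
        Finset.sum_le_sum fun e he => hN₀ e he N ((Finset.le_sup he).trans hN)
    _ = E.card * (ε' * Real.log N) := by rw [Finset.sum_const, nsmul_eq_mul]
    _ ≤ ε * Real.log N := by
        have h7 : (E.card : ℝ) * ε' ≤ ε := by
          rw [hε', mul_div_assoc', div_le_iff₀ (by positivity)]
          nlinarith
        calc (E.card : ℝ) * (ε' * Real.log N) = (E.card * ε') * Real.log N := by ring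
          _ ≤ ε * Real.log N := mul_le_mul_of_nonneg_right h7 hlog

end Pool.Agent.N912.LB
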