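import Pool.Agent.N912.LC.Stm4
import Pool.Agent.N912.RC.Stm
import Pool.Agent.N912.HL.H3

/-!
# Project LB (helper912): the two-point Elliott theorem for the IDEALS of an imaginary quadratic field:
arbitrary completely multiplicative functions `F₁, F₂` of the ideals of the maximal order `ℤ[ω]`
(`ω^2 = t ω - c`), over the factorisations `𝔞 𝔟 = (n + ω)`. Statements of the parts.
-/

set_option autoImplicit false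

namespace Pool.Agent.N912.LB

open Finset Filter NumberField
open Pool.Agent.W78.GA (Qd nm prim dt ip lat ball)
open Pool.Agent.W251.GX (Cm)
open Pool.Agent.N912.EP.W78EG
open Pool.Agent.N912.LC (Iv DL S_MC S_LC6a S_LC8 S_LC9 TP TP1 TW)
open Pool.Agent.Y773.G (IsModChar)
open Pool.Agent.N912.RC (IX CF S_RC3)
open Pool.Agent.N912.HL (Rm)

/-- completely multiplicative functions of the nonzero ideals with values in the `N`-th roots of unity -/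
structure CMI {R : Type} [CommRing R] (N : ℕ) (F : Ideal R → ℂ) : Prop where
  pos : 1 ≤ N
  mul : ∀ I J : Ideal R, I ≠ ⊥ → J ≠ ⊥ → F (I * J) = F I * F J
  pow : ∀ I : Ideal R, I ≠ ⊥ → F I ^ N = 1

variable {t c : ℤ}

/-- `n + ω` -/
def en (t c : ℤ) (n : ℕ) : Qd t c := ⟨n, 1⟩

/-- the ideal `(d, n + ω)`; if `d ∣ n^2 + t n + c` then it has norm `d` (in the maximal order) -/
def i1 (t c : ℤ) (d n : ℕ) : Ideal (Qd t c) := Ideal.span {(d : Qd t c), en t c n}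

open scoped Classical in
/-- the function `z ↦ F((z))` -/
noncomputable def el (F : Ideal (Qd t c) → ℂ) (z : Qd t c) : ℂ :=
  if z = 0 then 1 else F (Ideal.span {z})

/-! ### Part B: from the classes of the order to the ideals -/

/-- B6: in the maximal order every triple is primitive -/
def S_B6 : Prop := ∀ t c : ℤ, (t = 0 ∨ t = 1) → t ^ 2 < 4 * c → IsIntegrallyClosed (Qd t c) →
  ∀ X : ℝ, TP1 t c X = TP t c X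

/-- B1: the ideals attached to the bases of the ideal `{z : lat m r₀ z}` -/
def S_B1 : Prop := ∀ t c : ℤ, (t = 0 ∨ t = 1) → t ^ 2 < 4 * c → ∀ (m : ℕ) (r₀ : ℤ),
  Iv t c m r₀ → ∃ I I' : Ideal (Qd t c), I ≠ ⊥ ∧ I' ≠ ⊥ ∧ ∀ (X : ℝ), ∀ e ∈ DL t c m r₀ X,
    0 < pp e.1 e.2 →
    I' * i1 t c (nm e.1 / m) (ip e.1 e.2 / m).toNat = Ideal.span {star e.1} ∧
    I * i1 t c (nm e.2 / m) (ip e.1 e.2 / m).toNat = Ideal.span {e.2}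

/-- CORE1B: windows bounded away from `0`; compare `N912.LC.S_CORE1` -/
def S_CORE1B : Prop := ∀ t c : ℤ, (t = 0 ∨ t = 1) → t ^ 2 < 4 * c → IsIntegrallyClosed (Qd t c) →
  ∀ (N : ℕ) (F₁ F₂ : Ideal (Qd t c) → ℂ), CMI N F₁ → CMI N F₂ → Apd N (el F₂) →
  ∀ q : ℕ, 1 ≤ q → ∀ w : ZMod q → ZMod q → ZMod q → ℂ, ∀ (s₁ s₂ s₃ s₄ : ℝ), 0 < s₁ → s₁ < s₂ →
  s₂ ≤ 1 → 0 < s₃ → s₃ < s₄ → s₄ ≤ 1 → ∀ ε : ℝ, 0 < ε → ∃ N₀ : ℕ, ∀ N' : ℕ, N₀ ≤ N' →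
    ∑ X ∈ Icc 1 N', 1 / (X : ℝ) ^ 2 * ‖∑ y ∈ TW t c s₁ s₂ s₃ s₄ X,
      w y.2.2 y.1 y.2.1 * (F₁ (i1 t c y.1 y.2.2) * F₂ (i1 t c y.2.1 y.2.2))‖ ≤ ε * Real.log N'

/-- CORE2B: all windows in `[0, 1]`; one of the two functions is aperiodic -/
def S_CORE2B : Prop := ∀ t c : ℤ, (t = 0 ∨ t = 1) → t ^ 2 < 4 * c → IsIntegrallyClosed (Qd t c) →
  ∀ (N : ℕ) (F₁ F₂ : Ideal (Qd t c) → ℂ), CMI N F₁ → CMI N F₂ → (Apd N (el F₁) ∨ Apd N (el F₂)) →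
  ∀ q : ℕ, 1 ≤ q → ∀ w : ZMod q → ZMod q → ZMod q → ℂ, ∀ (s₁ s₂ s₃ s₄ : ℝ), 0 ≤ s₁ → s₁ < s₂ →
  s₂ ≤ 1 → 0 ≤ s₃ → s₃ < s₄ → s₄ ≤ 1 → ∀ ε : ℝ, 0 < ε → ∃ N₀ : ℕ, ∀ N' : ℕ, N₀ ≤ N' →
    ∑ X ∈ Icc 1 N', 1 / (X : ℝ) ^ 2 * ‖∑ y ∈ TW t c s₁ s₂ s₃ s₄ X,
      w y.2.2 y.1 y.2.1 * (F₁ (i1 t c y.1 y.2.2) * F₂ (i1 t c y.2.1 y.2.2))‖ ≤ ε * Real.log N'

/-- completely additive functions of the nonzero ideals -/
def AddI {R : Type} [CommRing R] {G : Type} [AddCommGroup G] (H : Ideal R → G) : Prop :=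
  ∀ I J : Ideal R, I ≠ ⊥ → J ≠ ⊥ → H (I * J) = H I + H J

/-- the hypothesis on the two functions -/
structure HypI (t c : ℤ) {G : Type} [AddCommGroup G] (H₁ H₂ : Ideal (Qd t c) → G) : Prop where
  add₁ : AddI H₁
  add₂ : AddI H₂
  apd : ∀ ψ : AddChar G ℂ, ψ ≠ 1 → Apd (Nat.card G) (el (fun I => ψ (H₁ I))) ∨
    Apd (Nat.card G) (el (fun I => ψ (H₂ I)))

open scoped Classical in
/-- the triples in the windows with `n ≡ u`, `d ≡ r`, `e ≡ r'` modulo `q` -/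
noncomputable def TWq (t c : ℤ) (q u r r' : ℕ) (s₁ s₂ s₃ s₄ X : ℝ) : Finset (ℕ × ℕ × ℕ) :=
  (TW t c s₁ s₂ s₃ s₄ X).filter
    (fun y => y.2.2 ≡ u [MOD q] ∧ y.1 ≡ r [MOD q] ∧ y.2.1 ≡ r' [MOD q])

open scoped Classical in
/-- FINGB: equidistribution in a finite abelian group -/
def S_FINGB : Prop := ∀ t c : ℤ, (t = 0 ∨ t = 1) → t ^ 2 < 4 * c → IsIntegrallyClosed (Qd t c) →
  ∀ (G : Type) [AddCommGroup G] [Finite G] (H₁ H₂ : Ideal (Qd t c) → G), HypI t c H₁ H₂ →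
  ∀ (q u r r' : ℕ) (g : G), 1 ≤ q → ∀ (s₁ s₂ s₃ s₄ : ℝ), 0 ≤ s₁ → s₁ < s₂ → s₂ ≤ 1 → 0 ≤ s₃ →
  s₃ < s₄ → s₄ ≤ 1 → ∀ ε : ℝ, 0 < ε → ∃ N₀ : ℕ, ∀ N' : ℕ, N₀ ≤ N' →
    ∑ X ∈ Icc 1 N', 1 / (X : ℝ) ^ 2 *
      |(((TWq t c q u r r' s₁ s₂ s₃ s₄ X).filter
          (fun y => H₁ (i1 t c y.1 y.2.2) + H₂ (i1 t c y.2.1 y.2.2) = g)).card : ℝ) -
        ((TWq t c q u r r' s₁ s₂ s₃ s₄ X).card : ℝ) / Nat.card G| ≤ ε * Real.log N'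

/-- the number of the `n ≤ X`, `n ≡ u mod q`, for which there are `d, e ≤ X` with
`n^2 + t n + c = d e` and `H₁((d, n + ω)) + H₂((e, n + ω)) = g` -/
noncomputable def cGI {G : Type} [AddCommGroup G] (t c : ℤ) (q u : ℕ) (H₁ H₂ : Ideal (Qd t c) → G)
    (g : G) (X : ℕ) : ℕ :=
  Set.ncard {n : ℕ | n ≤ X ∧ n ≡ u [MOD q] ∧ ∃ d e : ℕ, d ≤ X ∧ e ≤ X ∧
    (d : ℤ) * e = (n : ℤ) ^ 2 + t * n + c ∧ H₁ (i1 t c d n) + H₂ (i1 t c e n) = g}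

open scoped Classical in
/-- FINMGB: for almost all `X` (logarithmic density) at least `X / (log X)^(log 2 + ε)`, and for all
large `X` at least `X^(1-δ)`; compare `N912.LC.S_FINMG` -/
def S_FINMGB : Prop := ∀ t c : ℤ, (t = 0 ∨ t = 1) → t ^ 2 < 4 * c → IsIntegrallyClosed (Qd t c) →
  ∀ (G : Type) [AddCommGroup G] [Finite G] (H₁ H₂ : Ideal (Qd t c) → G), HypI t c H₁ H₂ →
  ∀ (q u : ℕ) (g : G), 1 ≤ q →
  (∀ ε : ℝ, 0 < ε → Tendsto (fun Z : ℕ => (∑ X ∈ (Icc 1 Z).filter (fun X : ℕ =>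
    (cGI t c q u H₁ H₂ g X : ℝ) < (X : ℝ) / Real.log X ^ (Real.log 2 + ε)), 1 / (X : ℝ)) /
      Real.log Z) atTop (nhds 0)) ∧
  ∀ δ : ℝ, 0 < δ → ∃ N₀ : ℕ, ∀ N : ℕ, N₀ ≤ N → (N : ℝ) ^ (1 - δ) ≤ (cGI t c q u H₁ H₂ g N : ℝ)

/-- B7: the factorisations of the ideal `(n + ω)` are the factorisations of `n^2 + t n + c` -/
def S_B7 : Prop := ∀ t c : ℤ, (t = 0 ∨ t = 1) → t ^ 2 < 4 * c → IsIntegrallyClosed (Qd t c) →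
  ∀ (n : ℕ) (I J : Ideal (Qd t c)), I * J = Ideal.span {en t c n} ↔
    ∃ d e : ℕ, (d : ℤ) * e = (n : ℤ) ^ 2 + t * n + c ∧ I = i1 t c d n ∧ J = i1 t c e n ∧
      Nat.card (Qd t c ⧸ I) = d ∧ Nat.card (Qd t c ⧸ J) = e

/-! ### Part H: Halasz's theorem for the ideals -/

/-- the number of ideals of norm `n` -/
noncomputable def rI (K : Type) [Field K] [NumberField K] (n : ℕ) : ℝ :=
  if n = 0 then 0 else (Set.ncard {𝔞 : Ideal (𝓞 K) | Ideal.absNorm 𝔞 = n} : ℝ)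

/-- HA: the number of ideals, with error term `O(√X)` -/
def S_HA : Prop := ∀ (K : Type) [Field K] [NumberField K] [IsTotallyComplex K],
  Module.finrank ℚ K = 2 → ∃ ρ C : ℝ, 0 < ρ ∧ Rm (rI K) ρ C

open scoped Classical in
/-- `F` is far from the ray class characters -/
def FarI (K : Type) [Field K] [NumberField K] (F : Ideal (𝓞 K) → ℂ) : Prop :=
  ∀ (𝔪 : Ideal (𝓞 K)) (η : Ideal (𝓞 K) →*₀ ℂ), IsModChar 𝔪 (fun _ => 0) η →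
    ¬ Summable (fun 𝔭 : Ideal (𝓞 K) =>
      if 𝔭.IsPrime ∧ 𝔭 ≠ ⊥ ∧ F 𝔭 ≠ η 𝔭 then 1 / (Ideal.absNorm 𝔭 : ℝ) else 0)

/-- HM: Halasz's theorem for the functions `η F` -/
def S_HM : Prop := ∀ (K : Type) [Field K] [NumberField K] [IsTotallyComplex K],
  Module.finrank ℚ K = 2 → ∀ (N : ℕ) (F : Ideal (𝓞 K) → ℂ), CMI N F → FarI K F →
  ∀ (𝔪 : Ideal (𝓞 K)) (η : Ideal (𝓞 K) →*₀ ℂ), IsModChar 𝔪 (fun _ => 0) η →
  ∀ ε : ℝ, 0 < ε → ∃ X₀ : ℝ, ∀ X : ℝ, X₀ ≤ X → ‖∑ 𝔞 ∈ IX K X, η 𝔞 * F 𝔞‖ ≤ ε * X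

/-- HD: mean value zero on the residue classes of the maximal order; compare `N912.RC.S_RC4` -/
def S_HD : Prop := ∀ (K : Type) [Field K] [NumberField K] [IsTotallyComplex K],
  Module.finrank ℚ K = 2 → ∀ (N : ℕ) (F : Ideal (𝓞 K) → ℂ), CMI N F → FarI K F →
  ∀ (m : ℕ) (ρ : 𝓞 K), 1 ≤ m → ∀ ε : ℝ, 0 < ε → ∃ X₀ : ℝ, ∀ X : ℝ, X₀ ≤ X →
    ‖∑ᶠ z ∈ {z : 𝓞 K | z ≠ 0 ∧ (Ideal.absNorm (Ideal.span {z}) : ℝ) ≤ X ∧ (m : 𝓞 K) ∣ z - ρ},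
      F (Ideal.span {z})‖ ≤ ε * X

/-- characters of the ray class group modulo `𝔪` of the ring `R`, as functions on the ideals, zero
on the ideals which are not prime to `𝔪` -/
structure RCh {R : Type} [CommRing R] (𝔪 : Ideal R) (η : Ideal R →*₀ ℂ) : Prop where
  ne_bot : 𝔪 ≠ ⊥
  supp : ∀ I : Ideal R, η I ≠ 0 ↔ IsCoprime I 𝔪
  ray : ∀ x : R, x ≠ 0 → x - 1 ∈ 𝔪 → η (Ideal.span {x}) = 1

open scoped Classical in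
/-- `F` is far from the ray class characters of `R` -/
def FarR {R : Type} [CommRing R] (F : Ideal R → ℂ) : Prop :=
  ∀ (𝔪 : Ideal R) (η : Ideal R →*₀ ℂ), RCh 𝔪 η →
    ¬ Summable (fun 𝔭 : Ideal R =>
      if 𝔭.IsPrime ∧ 𝔭 ≠ ⊥ ∧ F 𝔭 ≠ η 𝔭 then 1 / (Nat.card (R ⧸ 𝔭) : ℝ) else 0)

/-- HE: functions far from the ray class characters are aperiodic -/
def S_HE : Prop := ∀ t c : ℤ, t ^ 2 < 4 * c → IsIntegrallyClosed (Qd t c) →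
  ∀ (N : ℕ) (F : Ideal (Qd t c) → ℂ), CMI N F → FarR F → Apd N (el F)

end Pool.Agent.N912.LB
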